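import Mathlib
import Pool.Agent.N417.SchemeDefs
import Pool.Agent.N417.WeakKn

/-!
# Complete graphs are not weakly contractible in general

For all sufficiently large `n` there is a finite graph (on `2 n` vertices) which contains a
`K_n`-scheme but has no `K_n`-minor.
-/

set_option autoImplicit false

namespace Pool.Agent.Results.MP_ed45fc_co.NotWeaklyContractible

open Pool.Agent.N417.Scheme

/-- For all large `n` the complete graph `K_n` is not weakly contractible. -/
theorem result : ∃ N : ℕ, ∀ n : ℕ, N ≤ n →
    ¬ WeaklyContractible (⊤ : SimpleGraph (Fin n)) :=
  Pool.Agent.N417.WeakKn.main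

end Pool.Agent.Results.MP_ed45fc_co.NotWeaklyContractible
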